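import Mathlib

open Set Filter Topology OnePoint

namespace Pool.Agent.Results.MP_cda11a_an.NoShadow

/-- the `(1,2)`-shadowing property of a relation `G`, entourages being the neighbourhoods of the
diagonal -/
def Shadow12 {X : Type} [TopologicalSpace X] (G : Set (X × X)) : Prop :=
  ∀ U ∈ 𝓝ˢ (diagonal X), ∃ V ∈ 𝓝ˢ (diagonal X), ∀ x : ℕ → X,
    (∀ m y, (x m, y) ∈ G → (y, x (m + 1)) ∈ V) →
      ∃ y : ℕ → X, (∀ m, (y m, y (m + 1)) ∈ G) ∧ ∀ m, (y m, x m) ∈ U

lemma cont {A : Type} [TopologicalSpace A] [DiscreteTopology A] {f : A → A}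
    (hf : Function.Injective f) : Continuous (OnePoint.map f) :=
  OnePoint.continuous_map continuous_of_discreteTopology (by
    simpa only [coclosedCompact_eq_cocompact, cocompact_eq_cofinite] using hf.tendsto_cofinite)

lemma tend {A : Type} [TopologicalSpace A] [DiscreteTopology A] {f : ℕ → A}
    (hf : Function.Injective f) : Tendsto (fun n => (f n : OnePoint A)) atTop (𝓝 ∞) :=
  OnePoint.tendsto_coe_infty.comp (by
    simpa only [coclosedCompact_eq_cocompact, cocompact_eq_cofinite, Nat.cofinite_eq_atTop] using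
      hf.tendsto_cofinite)

lemma op (a : ℤ) : IsOpen {p : (OnePoint ℤ × OnePoint ℕ) × (OnePoint ℤ × OnePoint ℕ) |
    p.1.1 = a ↔ p.2.1 = a} := by
  have h : IsClopen {(a : OnePoint ℤ)} := ⟨isClosed_singleton, by
    rw [← image_singleton]; exact OnePoint.isOpen_image_coe.2 (isOpen_discrete _)⟩
  have h1 := h.preimage (f := fun p : (OnePoint ℤ × OnePoint ℕ) × (OnePoint ℤ × OnePoint ℕ) => p.1.1)
    (by fun_prop)
  have h2 := h.preimage (f := fun p : (OnePoint ℤ × OnePoint ℕ) × (OnePoint ℤ × OnePoint ℕ) => p.2.1)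
    (by fun_prop)
  have := ((h1.inter h2).union (h1.compl.inter h2.compl)).isOpen
  refine (congrArg IsOpen ?_).mp this
  ext p
  simp only [mem_union, mem_inter_iff, mem_preimage, mem_singleton_iff, mem_compl_iff, mem_ofPred_eq]
  tauto

theorem result : ∃ (X : Type) (_ : TopologicalSpace X) (_ : CompactSpace X) (_ : T2Space X)
    (_ : TotallyDisconnectedSpace X) (_ : Nonempty X) (G : Set (X × X)), IsClosed G ∧ G.Nonempty ∧
    (∀ x, ∃ y, (x, y) ∈ G ∧ (y, x) ∈ G) ∧ ¬ Shadow12 G := by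
  let φ : OnePoint ℤ × OnePoint ℕ → OnePoint ℤ × OnePoint ℕ :=
    Prod.map (OnePoint.map (· + 1)) (OnePoint.map (· + 1))
  have hφ : Continuous φ := (cont (add_left_injective 1)).prodMap (cont (add_left_injective 1))
  let O : Set (OnePoint ℕ) := (↑) '' {n : ℕ | n % 2 = 1}
  have hO : IsOpen O := OnePoint.isOpen_image_coe.2 (isOpen_discrete _)
  let G : Set ((OnePoint ℤ × OnePoint ℕ) × (OnePoint ℤ × OnePoint ℕ)) :=
    {p | p.1.2 ∉ O ∧ p.2 = φ p.1} ∪ {p | p.2.2 ∉ O ∧ p.1 = φ p.2}
  have hG : ∀ x, ∃ y, (x, y) ∈ G ∧ (y, x) ∈ G := by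
    rintro ⟨a, t⟩
    by_cases h : t ∈ O
    · obtain ⟨n, hn, rfl⟩ := h
      obtain ⟨k, rfl⟩ : ∃ k, n = k + 1 := ⟨n - 1, by simp at hn; omega⟩
      have h1 : (k : OnePoint ℕ) ∉ O := by simp [O] at hn ⊢; omega
      have h2 : (a, ((k + 1 : ℕ) : OnePoint ℕ)) = φ (OnePoint.map (· - 1) a, k) := by
        induction a using OnePoint.rec <;> simp [φ]
      exact ⟨(OnePoint.map (· - 1) a, k), Or.inr ⟨h1, h2⟩, Or.inl ⟨h1, h2⟩⟩
    · exact ⟨φ (a, t), Or.inl ⟨h, rfl⟩, Or.inr ⟨h, rfl⟩⟩
  refine ⟨OnePoint ℤ × OnePoint ℕ, inferInstance, inferInstance, inferInstance, inferInstance,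
    inferInstance, G, ?_, ?_, hG, fun h => ?_⟩
  · exact ((hO.isClosed_compl.preimage (by fun_prop)).inter (isClosed_eq (by fun_prop)
      (hφ.comp continuous_fst))).union ((hO.isClosed_compl.preimage (by fun_prop)).inter
      (isClosed_eq (by fun_prop) (hφ.comp continuous_snd)))
  · exact ⟨_, (hG (∞, ∞)).choose_spec.1⟩
  obtain ⟨V, hV, h⟩ := h _ ((((op 0).inter (op 1)).inter (op (-1))).mem_nhdsSet.2 (by
    rintro ⟨p, q⟩ (rfl : p = q); simp))
  have hV' : ∀ p, V ∈ 𝓝 (p, p) := fun p => mem_nhdsSet_iff_forall.1 hV _ rfl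
  have t1 := tend (f := fun k : ℕ => 2 * k + 1) fun a b h => by simp at h; omega
  have t2 := tend (f := fun k : ℕ => 2 * k) fun a b h => by simp at h; omega
  have t3 := tend (f := fun k : ℕ => (k : ℤ) + 1) fun a b h => by simp at h; omega
  have t4 := tend (f := fun k : ℕ => -(k : ℤ)) fun a b h => by simp at h; omega
  have e1 := ((t3.prodMk_nhds t1).prodMk_nhds (t4.prodMk_nhds t2)).eventually (hV' _)
  have e2 := (t1.prodMk_nhds t2).eventually (isCompact_univ.eventually_forall_of_forall_eventually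
    (x₀ := ((∞ : OnePoint ℕ), (∞ : OnePoint ℕ))) (P := fun s (y : OnePoint ℤ) => ((y, s.1), (y, s.2)) ∈ V)
    fun y _ => (by fun_prop : Continuous fun z : (OnePoint ℕ × OnePoint ℕ) × OnePoint ℤ =>
      ((z.2, z.1.1), (z.2, z.1.2))).continuousAt.eventually (hV' _))
  obtain ⟨k, ⟨a1, a2⟩, a3⟩ := ((e1.and e2).and (eventually_ge_atTop 2)).exists
  let c : ℕ → ℤ := fun m => if m ≤ k then m else m - 2 * k - 1
  obtain ⟨y, h1, h2⟩ := h (fun m => (c m, ((2 * k : ℕ) : OnePoint ℕ))) (by
    rintro m ⟨b, t⟩ (⟨-, hb⟩ | ⟨ht, hb⟩)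
    · simp only at hb
      rw [hb]
      by_cases hm : m = k
      · subst hm
        have : c (m + 1) = -m := by simp only [c]; rw [if_neg (by omega)]; push_cast; ring
        rw [this]
        simp only [φ, c, le_refl, if_true]
        exact a1
      · have : c (m + 1) = c m + 1 := by simp only [c]; split_ifs <;> push_cast <;> omega
        rw [this]
        exact a2 _ (mem_univ _)
    · exfalso
      have := congrArg Prod.snd hb
      induction t using OnePoint.rec with
      | infty => simp [φ] at this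
      | coe n => simp [φ, O] at this ht; omega)
  have key : ∀ m, 1 ≤ m → m ≤ 2 * k → ∃ a : ℤ, 0 < a ∧ (y m).1 = a := by
    intro m hm
    induction m, hm using Nat.le_induction with
    | base => exact fun _ => ⟨1, one_pos, (h2 1).1.2.2 (by simp [c]; omega)⟩
    | succ m hm ih =>
      intro hk
      obtain ⟨a, b1, b2⟩ := ih (by omega)
      have b3 : (y (m + 1)).1 ≠ (0 : ℤ) := fun e => by
        have := (h2 (m + 1)).1.1.1 e
        simp only [c, coe_eq_coe] at this
        split_ifs at this <;> omega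
      rcases h1 m with ⟨-, e⟩ | ⟨-, e⟩
      · exact ⟨a + 1, by omega, by simp only at e; rw [e]; simp [φ, b2]⟩
      · have := congrArg Prod.fst e
        simp only [φ, Prod.map_fst, b2] at this
        generalize (y (m + 1)).1 = w at *
        induction w using OnePoint.rec with
        | infty => simp at this
        | coe n => simp at this b3; exact ⟨n, by omega, rfl⟩
  obtain ⟨a, b1, b2⟩ := key (2 * k) (by omega) le_rfl
  have := (h2 (2 * k)).2.2 (by simp only [c]; rw [if_neg (by omega)]; congr 1; push_cast; ring)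
  simp only [b2, coe_eq_coe] at this
  omega

end Pool.Agent.Results.MP_cda11a_an.NoShadow
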